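import Pool.Agent.Helper18.FF3.Stmts

/-! # MDL: a field of positive transcendence degree is finite over some `F(u)` with `F` algebraically
closed in it -/

set_option autoImplicit false

namespace Pool.Agent.Helper18.FF3

open IntermediateField Polynomial

open scoped IntermediateField.algebraAdjoinAdjoin in
theorem mdl_li {K L M : Type} [Field K] [Field L] [Field M] [Algebra K L] [Algebra L M] [Algebra K M]
    [IsScalarTower K L M] (u : M) (hu : Transcendental L u) {ι : Type} (m : ι → L)
    (hm : LinearIndependent K m) : LinearIndependent K⟮u⟯ (fun i => algebraMap L M (m i)) := by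
  rw [← LinearIndependent.iff_fractionRing (Algebra.adjoin K {u}) K⟮u⟯]
  rw [linearIndependent_iff'] at hm ⊢
  intro s g hg i hi
  have hex : ∀ x : Algebra.adjoin K {u}, ∃ p : K[X], aeval u p = (x : M) := by
    rintro ⟨x, hx⟩
    rw [Algebra.adjoin_singleton_eq_range_aeval] at hx
    exact hx
  choose p hp using hex
  have hP : aeval u (∑ i ∈ s, C (m i) * (p (g i)).map (algebraMap K L)) = 0 := by
    rw [map_sum, ← hg]
    refine Finset.sum_congr rfl (fun i _ => ?_)
    rw [map_mul, aeval_C, aeval_map_algebraMap, hp, mul_comm]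
    rfl
  have hP0 : (∑ i ∈ s, C (m i) * (p (g i)).map (algebraMap K L)) = 0 := by
    by_contra h
    exact hu ⟨_, h, hP⟩
  have hc : ∀ j, ∀ i ∈ s, (p (g i)).coeff j = 0 := by
    intro j
    apply hm s (fun i => (p (g i)).coeff j)
    have h1 := congrArg (fun P : L[X] => P.coeff j) hP0
    simp only [finsetSum_coeff, coeff_C_mul, coeff_map, coeff_zero] at h1
    rw [← h1]
    refine Finset.sum_congr rfl (fun i _ => ?_)
    rw [Algebra.smul_def, mul_comm]
  have h0 : p (g i) = 0 := by
    ext j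
    rw [coeff_zero]
    exact hc j i hi
  have h1 := hp (g i)
  rw [h0, map_zero] at h1
  exact Subtype.ext h1.symm

theorem mdl_chain (k : Type) [Field k] [CharZero k] [DecidableEq k] (s : Finset k) :
    (∀ y ∈ s, IsAlgebraic ℚ y) ∨ ∃ (F₀ : IntermediateField ℚ k) (u : k), F₀.FG ∧
      Transcendental F₀ u ∧ ∀ y ∈ s, IsAlgebraic F₀⟮u⟯ y := by
  induction s using Finset.induction_on with
  | empty => exact Or.inl (fun y hy => by simp at hy)
  | insert x s _ ih =>
    rcases ih with h | ⟨F₀, u, hF, hu, hs⟩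
    · by_cases hx : IsAlgebraic ℚ x
      · refine Or.inl (fun y hy => ?_)
        rcases Finset.mem_insert.mp hy with rfl | hy
        · exact hx
        · exact h y hy
      · refine Or.inr ⟨⊥, x, fg_bot, ?_, fun y hy => ?_⟩
        · intro hx2
          exact hx (hx2.restrictScalars ℚ)
        · rcases Finset.mem_insert.mp hy with rfl | hy
          · exact isAlgebraic_algebraMap (R := (⊥ : IntermediateField ℚ k)⟮y⟯) (A := k)
              (⟨y, mem_adjoin_simple_self _ y⟩ : (⊥ : IntermediateField ℚ k)⟮y⟯)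
          · exact (h y hy).tower_top _
    · by_cases hx : IsAlgebraic F₀⟮u⟯ x
      · refine Or.inr ⟨F₀, u, hF, hu, fun y hy => ?_⟩
        rcases Finset.mem_insert.mp hy with rfl | hy
        · exact hx
        · exact hs y hy
      · refine Or.inr ⟨F₀⟮u⟯.restrictScalars ℚ, x, ?_, hx, fun y hy => ?_⟩
        · have e1 : (F₀⟮u⟯.restrictScalars ℚ) = adjoin ℚ ((F₀ : Set k) ∪ {u}) := by
            rw [← restrictScalars_adjoin ℚ F₀ ({u} : Set k)]
            rfl
          rw [e1, adjoin_union, adjoin_self]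
          exact fg_sup hF (fg_adjoin_of_finite (Set.finite_singleton u))
        · rcases Finset.mem_insert.mp hy with rfl | hy
          · exact isAlgebraic_algebraMap (R := (F₀⟮u⟯.restrictScalars ℚ)⟮y⟯) (A := k)
              (⟨y, mem_adjoin_simple_self _ y⟩ : (F₀⟮u⟯.restrictScalars ℚ)⟮y⟯)
          · have h1 : IsAlgebraic (F₀⟮u⟯.restrictScalars ℚ) y := hs y hy
            exact h1.tower_top _

theorem mdl_top {k : Type} [Field k] [CharZero k] (F₀ : IntermediateField ℚ k) (hF : F₀.FG)
    (F : IntermediateField F₀ k) [FiniteDimensional F₀ F] : (⊤ : IntermediateField ℚ F).FG := by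
  rw [fg_top_iff]
  have h1 : Algebra.EssFiniteType ℚ F₀ := essFiniteType_iff.mpr hF
  have h2 : Algebra.EssFiniteType F₀ F := inferInstance
  have h3 : Algebra.EssFiniteType ℚ F := Algebra.EssFiniteType.comp ℚ F₀ F
  have e : (DivisionRing.toRatAlgebra : Algebra ℚ F) = IntermediateField.algebra' F :=
    Subsingleton.elim _ _
  rw [e]
  exact h3

theorem mdl_fd {L M : Type} [Field L] [Field M] [Algebra L M] (s : Finset M)
    (h : adjoin L (s : Set M) = ⊤) (halg : ∀ y ∈ s, IsAlgebraic L y) : FiniteDimensional L M := by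
  have h2 : FiniteDimensional L (adjoin L (s : Set M)) :=
    finiteDimensional_adjoin fun x hx => (halg x hx).isIntegral
  rw [h] at h2
  exact LinearEquiv.finiteDimensional (topEquiv (F := L) (E := M)).toLinearEquiv

theorem mdl_fin {k : Type} [Field k] [CharZero k] (s : Finset k) (hs : adjoin ℚ (s : Set k) = ⊤)
    (F₀ : IntermediateField ℚ k) (u : k) (halg : ∀ y ∈ s, IsAlgebraic F₀⟮u⟯ y) :
    FiniteDimensional F₀⟮u⟯ k := by
  have h1 : adjoin F₀⟮u⟯ (s : Set k) = ⊤ := by
    rw [eq_top_iff]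
    intro x _
    have hx : x ∈ adjoin ℚ (s : Set k) := by rw [hs]; exact mem_top
    have h2 : adjoin ℚ (s : Set k) ≤ (adjoin F₀⟮u⟯ (s : Set k)).restrictScalars ℚ := by
      rw [adjoin_le_iff]
      intro y hy
      have h3 : y ∈ adjoin F₀⟮u⟯ (s : Set k) := subset_adjoin F₀⟮u⟯ (s : Set k) hy
      exact h3
    have h4 := h2 hx
    exact h4
  exact mdl_fd s h1 halg

theorem mdl_finF {k : Type} [Field k] [CharZero k] (F₀ : IntermediateField ℚ k) (u : k)
    (hu : Transcendental F₀ u) [FiniteDimensional F₀⟮u⟯ k] :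
    FiniteDimensional F₀ (algebraicClosure F₀ k) := by
  have hu' : Transcendental (algebraicClosure F₀ k) u := hu.algebraicClosure
  have h1 : Module.rank F₀ (algebraicClosure F₀ k) ≤ (Module.finrank F₀⟮u⟯ k : ℕ) := by
    apply rank_le
    intro s hs
    have h2 := mdl_li (K := F₀) (L := algebraicClosure F₀ k) (M := k) u hu'
      (fun i : s => (i : algebraicClosure F₀ k)) hs
    have h3 := h2.fintype_card_le_finrank
    simpa using h3
  have h2 : Module.rank F₀ (algebraicClosure F₀ k) < Cardinal.aleph0 :=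
    lt_of_le_of_lt h1 Cardinal.natCast_lt_aleph0
  exact Module.rank_lt_aleph0_iff.1 h2

theorem mdl_alg {K L M : Type} [Field K] [Field L] [Field M] [Algebra K L] [Algebra L M] [Algebra K M]
    [IsScalarTower K L M] (u : M) (hu : Transcendental L u) [FiniteDimensional K⟮u⟯ M]
    (hac : ∀ a : M, IsAlgebraic L a → ∃ b : L, algebraMap L M b = a) :
    ∃ _ : Algebra (RatFunc L) M, FiniteDimensional (RatFunc L) M ∧ AC L M := by
  let e : RatFunc L ≃ₐ[L] L⟮u⟯ := RatFunc.algEquivOfTranscendental u hu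
  let A1 : Algebra (RatFunc L) M := ((algebraMap L⟮u⟯ M).comp (e : RatFunc L →+* L⟮u⟯)).toAlgebra
  refine ⟨A1, ?_, ?_⟩
  · have hle : K⟮u⟯ ≤ (L⟮u⟯).restrictScalars K := by
      rw [adjoin_le_iff]
      intro y hy
      have h3 : y ∈ adjoin L ({u} : Set M) := subset_adjoin L ({u} : Set M) hy
      exact h3
    let i1 : K⟮u⟯ →+* L⟮u⟯ :=
      { toFun := fun x => ⟨x, hle x.2⟩
        map_one' := rfl
        map_mul' := fun _ _ => rfl
        map_zero' := rfl
        map_add' := fun _ _ => rfl }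
    let φ : K⟮u⟯ →+* RatFunc L := (e.symm : L⟮u⟯ →+* RatFunc L).comp i1
    have hφ : ∀ x : K⟮u⟯, algebraMap (RatFunc L) M (φ x) = (x : M) := by
      intro x
      change algebraMap L⟮u⟯ M (e (e.symm (i1 x))) = (x : M)
      rw [AlgEquiv.apply_symm_apply]
      rfl
    let A2 : Algebra K⟮u⟯ (RatFunc L) := φ.toAlgebra
    have hst : IsScalarTower K⟮u⟯ (RatFunc L) M :=
      IsScalarTower.of_algebraMap_eq (fun x => (hφ x).symm)
    exact Module.Finite.of_restrictScalars_finite K⟮u⟯ (RatFunc L) M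
  · intro a ha
    obtain ⟨G, hG, hGa⟩ := ha
    have hc : ∀ b : L, algebraMap (RatFunc L) M (RatFunc.C b) = algebraMap L M b := by
      intro b
      change algebraMap L⟮u⟯ M (e (RatFunc.C b)) = algebraMap L M b
      have h1 : e (RatFunc.C b) = algebraMap L L⟮u⟯ b := by
        rw [← RatFunc.algebraMap_eq_C, e.commutes]
      rw [h1]
      rfl
    have hcomp : (algebraMap (RatFunc L) M).comp RatFunc.C = algebraMap L M := RingHom.ext hc
    rw [hcomp] at hGa
    obtain ⟨b, hb⟩ := hac a ⟨G, hG, hGa⟩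
    exact ⟨b, by rw [hc, hb]⟩

theorem st_MDL : ST_MDL := by
  classical
  intro k _ _ hk htr
  obtain ⟨s, hs⟩ := hk
  rcases mdl_chain k s with hall | ⟨F₀, u, hFG, hu, halg⟩
  · exfalso
    obtain ⟨x, hx⟩ := htr
    apply hx
    have h1 : Algebra.IsAlgebraic ℚ (adjoin ℚ (s : Set k)) :=
      isAlgebraic_adjoin (fun y hy => (hall y hy).isIntegral)
    have hx1 : x ∈ adjoin ℚ (s : Set k) := by rw [hs]; exact mem_top
    have h2 := h1.isAlgebraic ⟨x, hx1⟩
    exact (isAlgebraic_iff (x := (⟨x, hx1⟩ : adjoin ℚ (s : Set k)))).1 h2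
  · have hfin0 : FiniteDimensional F₀⟮u⟯ k := mdl_fin s hs F₀ u halg
    have hfinF : FiniteDimensional F₀ (algebraicClosure F₀ k) := mdl_finF F₀ u hu
    have hu' : Transcendental (algebraicClosure F₀ k) u := hu.algebraicClosure
    obtain ⟨A1, h1, h2⟩ := mdl_alg (K := F₀) (L := algebraicClosure F₀ k) (M := k) u hu' (by
      intro a ha
      have h3 : IsAlgebraic F₀ a := ha.restrictScalars F₀
      exact ⟨⟨a, (mem_algebraicClosure_iff).2 h3⟩, rfl⟩)
    exact ⟨algebraicClosure F₀ k, inferInstance, inferInstance, A1, h1, mdl_top F₀ hFG _, h2⟩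

end Pool.Agent.Helper18.FF3
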